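import Pool.Agent.H940R3.Game

/-!
# Painter keeps a small bounded-degree board free of monochromatic cliques of logarithmic order
-/

set_option autoImplicit false

open Finset

namespace Pool.Agent.H940R3

theorem rep_mem1 (e : Sym2 ℕ) : (rep e).1 ∈ e := by
  have h : (rep e).1 ∈ s((rep e).1, (rep e).2) := Sym2.mem_mk_left _ _
  rwa [← rep_spec e] at h

theorem rep_mem2 (e : Sym2 ℕ) : (rep e).2 ∈ e := by
  have h : (rep e).2 ∈ s((rep e).1, (rep e).2) := Sym2.mem_mk_right _ _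
  rwa [← rep_spec e] at h

theorem E_ge {h : List (Sym2 ℕ × Bool)} {S : Finset ℕ} {c : Bool}
    (hS : ∀ a ∈ S, ∀ b ∈ S, a ≠ b → (s(a, b), c) ∈ h) : S.card.choose 2 ≤ E h S := by
  classical
  rw [← Sym2.card_image_offDiag]
  set U : Finset (Sym2 ℕ) := image (Function.uncurry Sym2.mk) S.offDiag with hU
  have h1 : (U.image fun e => (e, c)).card = U.card := by
    refine card_image_of_injective _ ?_
    intro e e' he
    exact (Prod.mk.inj he).1
  rw [← h1]
  have h2 : (U.image fun e => (e, c)) ⊆ (h.filter (fun x => inside S x.1)).toFinset := by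
    intro y hy
    rw [mem_image] at hy
    obtain ⟨e, he, rfl⟩ := hy
    rw [hU, mem_image] at he
    obtain ⟨⟨a, b⟩, hab, rfl⟩ := he
    rw [mem_offDiag] at hab
    obtain ⟨ha, hb, hne⟩ := hab
    rw [List.mem_toFinset, List.mem_filter]
    refine ⟨hS a ha b hb hne, ?_⟩
    simp only [Function.uncurry_apply_pair, decide_eq_true_eq]
    have hr1 : (rep s(a, b)).1 ∈ s(a, b) := rep_mem1 _
    have hr2 : (rep s(a, b)).2 ∈ s(a, b) := rep_mem2 _
    rw [Sym2.mem_iff] at hr1 hr2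
    constructor
    · rcases hr1 with h3 | h3
      · rw [h3]; exact ha
      · rw [h3]; exact hb
    · rcases hr2 with h3 | h3
      · rw [h3]; exact ha
      · rw [h3]; exact hb
  exact (card_le_card h2).trans (List.toFinset_card_le _)

theorem pow_bound (D0 : ℕ) :
    (1 / 4 : ℝ) ≤ (((D0 : ℝ) + 1) / ((D0 : ℝ) + 2)) ^ D0 := by
  have hD : (0 : ℝ) < (D0 : ℝ) + 1 := by positivity
  have h1 : (((D0 : ℝ) + 2) / ((D0 : ℝ) + 1)) ^ D0 ≤ 4 := by
    have h2 : ((D0 : ℝ) + 2) / ((D0 : ℝ) + 1) ≤ Real.exp (1 / ((D0 : ℝ) + 1)) := by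
      have h3 := Real.add_one_le_exp (1 / ((D0 : ℝ) + 1))
      have h4 : ((D0 : ℝ) + 2) / ((D0 : ℝ) + 1) = 1 / ((D0 : ℝ) + 1) + 1 := by
        field_simp
        ring
      rw [h4]
      exact h3
    calc (((D0 : ℝ) + 2) / ((D0 : ℝ) + 1)) ^ D0 ≤ (Real.exp (1 / ((D0 : ℝ) + 1))) ^ D0 :=
          pow_le_pow_left₀ (by positivity) h2 _
      _ = Real.exp (D0 * (1 / ((D0 : ℝ) + 1))) := (Real.exp_nat_mul _ _).symm
      _ ≤ Real.exp 1 := by
          apply Real.exp_le_exp.2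
          rw [mul_one_div, div_le_one hD]
          linarith
      _ ≤ 4 := by
          have := Real.exp_one_lt_three
          linarith
  have h5 : (((D0 : ℝ) + 1) / ((D0 : ℝ) + 2)) ^ D0 * (((D0 : ℝ) + 2) / ((D0 : ℝ) + 1)) ^ D0 = 1 := by
    rw [← mul_pow]
    have : ((D0 : ℝ) + 1) / ((D0 : ℝ) + 2) * (((D0 : ℝ) + 2) / ((D0 : ℝ) + 1)) = 1 := by
      field_simp
    rw [this, one_pow]
  have h6 : 0 < (((D0 : ℝ) + 1) / ((D0 : ℝ) + 2)) ^ D0 := by positivity
  nlinarith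

/-- the parameters -/
noncomputable def qq (D0 : ℕ) : ℝ := ((D0 : ℝ) + 1) / ((D0 : ℝ) + 2)

noncomputable def LL (D0 : ℕ) : ℝ := ((D0 : ℝ) + 1) ^ 2

theorem qq_nonneg (D0 : ℕ) : 0 ≤ qq D0 := by unfold qq; positivity

theorem qq_le_one (D0 : ℕ) : qq D0 ≤ 1 := by
  unfold qq
  rw [div_le_one (by positivity)]
  linarith

theorem LL_pos (D0 : ℕ) : 0 < LL D0 := by unfold LL; positivity

theorem qL (D0 : ℕ) : (qq D0) ^ 2 / LL D0 ≤ (1 - qq D0) ^ 2 := by
  unfold qq LL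
  apply le_of_eq
  field_simp
  ring

/-- Painter's strategy avoids monochromatic cliques of order `2 k + 1` as long as the degrees are at
most `D0`, where `16 (D0 + 1) ^ 2 ≤ 2 ^ k`. -/
theorem painter_avoids (k D0 : ℕ) (hk : 16 * (D0 + 1) ^ 2 ≤ 2 ^ k)
    (h : List (Sym2 ℕ × Bool)) (hreg : Reg (zof (qq D0) (LL D0) (1 / 4) h))
    (hnd : (h.map Prod.fst).Nodup) (hdiag : ∀ x ∈ h, ¬ x.1.IsDiag)
    (hdeg : ∀ v : ℕ, (h.filter (fun x => v ∈ x.1)).length ≤ D0)
    (φ : Fin (2 * k + 1) → ℕ) (hφ : Function.Injective φ) (c : Bool)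
    (hmono : ∀ u w : Fin (2 * k + 1), u ≠ w → (s(φ u, φ w), c) ∈ h) : False := by
  classical
  set S : Finset ℕ := univ.image φ with hS
  have hcard : S.card = 2 * k + 1 := by
    rw [hS, card_image_of_injective _ hφ, card_univ, Fintype.card_fin]
  have hclique : ∀ a ∈ S, ∀ b ∈ S, a ≠ b → (s(a, b), c) ∈ h := by
    intro a ha b hb hab
    rw [hS, mem_image] at ha hb
    obtain ⟨i, -, rfl⟩ := ha
    obtain ⟨j, -, rfl⟩ := hb
    exact hmono i j (fun h' => hab (h' ▸ rfl))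
  have hne : S.Nonempty := by
    rw [← card_pos, hcard]; omega
  have hconn : Conn h S := by
    refine ⟨hne, ?_⟩
    intro A hA hAne hAS hc
    obtain ⟨a, ha⟩ := hAne
    have h1 : (S \ A).Nonempty := by
      rw [sdiff_nonempty]
      exact fun h' => hAS (Subset.antisymm hA h')
    obtain ⟨b, hb⟩ := h1
    have hab : a ≠ b := fun h' => (mem_sdiff.1 hb).2 (h' ▸ ha)
    exact hc _ (hclique a (hA ha) b (mem_sdiff.1 hb).1 hab) a ha b hb rfl
  have hm : ∀ x ∈ h, inside S x.1 → x.2 = c := by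
    intro x hx hi
    have h1 := hclique _ hi.1 _ hi.2 (rep_ne (hdiag x hx))
    rw [← rep_spec x.1] at h1
    have h2 := List.inj_on_of_nodup_map hnd hx h1 rfl
    rw [h2]
  have hq0 := qq_nonneg D0
  have hq1 := qq_le_one D0
  have hL := LL_pos D0
  have hlow := lower (z0 := 1 / 4) hq0 hL (by norm_num) c h hdiag S hconn hm
  have hE : (2 * k + 1) * k ≤ E h S := by
    have h1 := E_ge hclique
    rw [hcard, Nat.choose_two_right] at h1
    have h2 : (2 * k + 1) * (2 * k + 1 - 1) / 2 = (2 * k + 1) * k := by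
      have h3 : (2 * k + 1) * (2 * k + 1 - 1) = ((2 * k + 1) * k) * 2 := by
        have : 2 * k + 1 - 1 = 2 * k := by omega
        rw [this]; ring
      rw [h3, Nat.mul_div_cancel _ (by norm_num)]
    rw [h2] at h1
    exact h1
  have hd : dS h S ≤ (2 * k + 1) * D0 := by
    unfold dS
    have h1 : ∑ w ∈ S, dg h w ≤ ∑ _w ∈ S, D0 := sum_le_sum fun w _ => hdeg w
    rw [sum_const, hcard, smul_eq_mul] at h1
    exact h1
  have hlt : zof (qq D0) (LL D0) (1 / 4) h c S < 1 := by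
    have h1 := hreg.2.lt_one (tot_nonneg hreg.1) hne
    unfold tot at h1
    have h2 := hreg.1 true S
    have h3 := hreg.1 false S
    cases c
    · linarith
    · linarith
  -- numeric
  have h1 : (1 : ℝ) ≤ LL D0 * 2 ^ (E h S) * (1 / 4 / LL D0) ^ S.card * (qq D0) ^ (dS h S) := by
    have hq4 : (1 / 4 : ℝ) ≤ (qq D0) ^ D0 := pow_bound D0
    have h2 : ((1 : ℝ) / 4) ^ (2 * k + 1) ≤ (qq D0) ^ (dS h S) := by
      calc ((1 : ℝ) / 4) ^ (2 * k + 1) ≤ ((qq D0) ^ D0) ^ (2 * k + 1) :=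
            pow_le_pow_left₀ (by norm_num) hq4 _
        _ = (qq D0) ^ ((2 * k + 1) * D0) := by rw [← pow_mul, mul_comm D0]
        _ ≤ (qq D0) ^ (dS h S) := pow_le_pow_of_le_one hq0 hq1 hd
    have h3 : ((2 : ℝ) ^ k) ^ (2 * k + 1) ≤ 2 ^ (E h S) := by
      rw [← pow_mul, mul_comm]
      exact pow_le_pow_right₀ (by norm_num) hE
    have h4 : (1 : ℝ) ≤ LL D0 := by
      unfold LL
      have : (0 : ℝ) ≤ D0 := Nat.cast_nonneg _
      nlinarith
    have h5 : 16 * LL D0 ≤ (2 : ℝ) ^ k := by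
      unfold LL
      exact_mod_cast hk
    have h6 : (1 : ℝ) ≤ (2 ^ k * (1 / 4 / LL D0) * (1 / 4)) ^ (2 * k + 1) := by
      apply one_le_pow₀
      have e : (2 : ℝ) ^ k * (1 / 4 / LL D0) * (1 / 4) = 2 ^ k / (16 * LL D0) := by
        field_simp
        ring
      rw [e, le_div_iff₀ (by positivity), one_mul]
      exact h5
    rw [hcard]
    have ht : 0 ≤ (1 / 4 / LL D0) ^ (2 * k + 1) := by positivity
    calc (1 : ℝ) ≤ (2 ^ k * (1 / 4 / LL D0) * (1 / 4)) ^ (2 * k + 1) := h6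
      _ = 1 * (2 ^ k) ^ (2 * k + 1) * (1 / 4 / LL D0) ^ (2 * k + 1) * (1 / 4) ^ (2 * k + 1) := by
          rw [mul_pow, mul_pow, one_mul]
      _ ≤ LL D0 * 2 ^ (E h S) * (1 / 4 / LL D0) ^ (2 * k + 1) * (qq D0) ^ (dS h S) := by
          refine mul_le_mul ?_ h2 (by positivity) (by positivity)
          refine mul_le_mul_of_nonneg_right ?_ ht
          exact mul_le_mul h4 h3 (by positivity) (by positivity)
  linarith

/-- exponential against polynomial -/
theorem growth (C d : ℕ) : ∃ k : ℕ, 16 * (C * (2 * k + 1) ^ d + 1) ^ 2 ≤ 2 ^ k := by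
  set K : ℕ := 16 * (C + 1) ^ 2 * 3 ^ (2 * d) with hK
  have hKpos : 0 < K := by positivity
  have ht := tendsto_pow_const_div_const_pow_of_one_lt (2 * d) (r := 2) (by norm_num)
  have h1 : (0 : ℝ) < 1 / K := by positivity
  have h2 := (ht.eventually (gt_mem_nhds h1)).and (Filter.eventually_ge_atTop 1)
  obtain ⟨k, hk, hk1⟩ := h2.exists
  refine ⟨k, ?_⟩
  have h3 : (K : ℝ) * (k : ℝ) ^ (2 * d) ≤ 2 ^ k := by
    rw [div_lt_div_iff₀ (by positivity) (by positivity)] at hk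
    rw [one_mul] at hk
    rw [mul_comm]
    exact hk.le
  have h4 : K * k ^ (2 * d) ≤ 2 ^ k := by exact_mod_cast h3
  refine le_trans ?_ h4
  have h5 : 2 * k + 1 ≤ 3 * k := by omega
  have h6 : (2 * k + 1) ^ d ≤ (3 * k) ^ d := Nat.pow_le_pow_left h5 d
  have h7 : 1 ≤ (3 * k) ^ d := Nat.one_le_pow _ _ (by omega)
  have h8 : C * (2 * k + 1) ^ d + 1 ≤ (C + 1) * (3 * k) ^ d := by
    calc C * (2 * k + 1) ^ d + 1 ≤ C * (3 * k) ^ d + (3 * k) ^ d :=
          Nat.add_le_add (Nat.mul_le_mul_left _ h6) h7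
      _ = (C + 1) * (3 * k) ^ d := by ring
  calc 16 * (C * (2 * k + 1) ^ d + 1) ^ 2 ≤ 16 * ((C + 1) * (3 * k) ^ d) ^ 2 :=
        Nat.mul_le_mul_left _ (Nat.pow_le_pow_left h8 2)
    _ = K * k ^ (2 * d) := by
        rw [hK, mul_pow, mul_pow, mul_pow, ← pow_mul, ← pow_mul, mul_comm d 2]
        ring

end Pool.Agent.H940R3
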