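import Pool.Agent.H940R3.Round

/-!
# The online game: Painter's potential and its lower bound on monochromatic connected sets
-/

set_option autoImplicit false

open Finset

namespace Pool.Agent.H940R3

theorem exists_rep (e : Sym2 ℕ) : ∃ p : ℕ × ℕ, e = s(p.1, p.2) := by
  induction e with
  | _ a b => exact ⟨(a, b), rfl⟩

/-- the two ends of a pair -/
noncomputable def rep (e : Sym2 ℕ) : ℕ × ℕ := (exists_rep e).choose

theorem rep_spec (e : Sym2 ℕ) : e = s((rep e).1, (rep e).2) := (exists_rep e).choose_spec

theorem rep_ne {e : Sym2 ℕ} (h : ¬ e.IsDiag) : (rep e).1 ≠ (rep e).2 := by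
  intro h'
  apply h
  rw [rep_spec e]
  exact Sym2.mk_isDiag_iff.2 h'

/-- update of the potential -/
noncomputable def upd (q L : ℝ) (z : Bool → Finset ℕ → ℝ) (e : Sym2 ℕ) (c : Bool) :
    Bool → Finset ℕ → ℝ :=
  if (rep e).1 = (rep e).2 then z else step q L z (rep e).1 (rep e).2 c

/-- the initial potential -/
noncomputable def init (z0 : ℝ) : Bool → Finset ℕ → ℝ := fun _ S => if S.card = 1 then z0 else 0

/-- the potential after a history -/
noncomputable def zof (q L z0 : ℝ) (h : List (Sym2 ℕ × Bool)) : Bool → Finset ℕ → ℝ :=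
  h.foldl (fun z x => upd q L z x.1 x.2) (init z0)

theorem zof_nil (q L z0 : ℝ) : zof q L z0 [] = init z0 := rfl

theorem zof_append (q L z0 : ℝ) (h : List (Sym2 ℕ × Bool)) (x : Sym2 ℕ × Bool) :
    zof q L z0 (h ++ [x]) = upd q L (zof q L z0 h) x.1 x.2 := by
  unfold zof
  rw [List.foldl_append]
  rfl

/-- the invariant -/
def Reg (z : Bool → Finset ℕ → ℝ) : Prop := (∀ c S, 0 ≤ z c S) ∧ Pos (tot z)

theorem F_init (z0 : ℝ) (W : Finset ℕ) : F (tot (init z0)) W = (1 - 2 * z0) ^ W.card := by
  induction W using Finset.induction_on with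
  | empty => rw [F_empty, card_empty, pow_zero]
  | insert v W hv ih =>
    rw [F_insert _ hv, card_insert_of_notMem hv, sum_eq_single ∅]
    · have h1 : tot (init z0) (insert v (∅ : Finset ℕ)) = 2 * z0 := by
        unfold tot init
        rw [insert_empty_eq, card_singleton, if_pos rfl]
        ring
      rw [h1, sdiff_empty, ih]
      ring
    · intro B hB hne
      have hvB : v ∉ B := fun h => hv (mem_powerset.1 hB h)
      have hc : (insert v B).card ≠ 1 := by
        rw [card_insert_of_notMem hvB]
        have : 0 < B.card := card_pos.2 (nonempty_iff_ne_empty.2 hne)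
        omega
      have h1 : tot (init z0) (insert v B) = 0 := by
        unfold tot init
        rw [if_neg hc, add_zero]
      rw [h1, zero_mul]
    · intro h
      exact absurd (empty_mem_powerset W) h

theorem reg_init {z0 : ℝ} (h0 : 0 ≤ z0) (h1 : 2 * z0 < 1) : Reg (init z0) := by
  refine ⟨fun c S => ?_, fun W => ?_⟩
  · unfold init
    split_ifs
    · exact h0
    · exact le_rfl
  · rw [F_init]
    exact pow_pos (by linarith) _

theorem reg_upd {q L : ℝ} (hq0 : 0 ≤ q) (hq1 : q ≤ 1) (hL : 0 < L)
    (hqL : q ^ 2 / L ≤ (1 - q) ^ 2) {z : Bool → Finset ℕ → ℝ} (hz : Reg z) (e : Sym2 ℕ) :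
    ∃ c : Bool, Reg (upd q L z e c) := by
  by_cases h : (rep e).1 = (rep e).2
  · refine ⟨true, ?_⟩
    unfold upd
    rw [if_pos h]
    exact hz
  · obtain ⟨c, hc⟩ := exists_colour hq0 hq1 hL hqL hz.1 hz.2 h
    refine ⟨c, ?_⟩
    unfold upd
    rw [if_neg h]
    exact ⟨step_nonneg hq0 hL hz.1 _ _ c, hc⟩

/-- Painter's strategy -/
noncomputable def painter (q L z0 : ℝ) (h : List (Sym2 ℕ × Bool)) (e : Sym2 ℕ) : Bool :=
  open Classical in
  if hx : ∃ c : Bool, Reg (upd q L (zof q L z0 h) e c) then hx.choose else true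

theorem painter_spec {q L : ℝ} (hq0 : 0 ≤ q) (hq1 : q ≤ 1) (hL : 0 < L)
    (hqL : q ^ 2 / L ≤ (1 - q) ^ 2) {z0 : ℝ} {h : List (Sym2 ℕ × Bool)}
    (hz : Reg (zof q L z0 h)) (e : Sym2 ℕ) :
    Reg (zof q L z0 (h ++ [(e, painter q L z0 h e)])) := by
  have hx := reg_upd hq0 hq1 hL hqL hz e
  rw [zof_append]
  unfold painter
  rw [dif_pos hx]
  exact hx.choose_spec

/-! ## Lower bound -/

theorem zof_nonneg {q L z0 : ℝ} (hq0 : 0 ≤ q) (hL : 0 < L) (h0 : 0 ≤ z0)
    (h : List (Sym2 ℕ × Bool)) : ∀ c S, 0 ≤ zof q L z0 h c S := by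
  induction h using List.reverseRecOn with
  | nil =>
    intro c S
    rw [zof_nil]
    unfold init
    split_ifs
    · exact h0
    · exact le_rfl
  | append_singleton h x ih =>
    intro c S
    rw [zof_append]
    unfold upd
    split_ifs
    · exact ih c S
    · exact step_nonneg hq0 hL ih _ _ _ c S

/-- number of entries at a vertex -/
def dg (h : List (Sym2 ℕ × Bool)) (w : ℕ) : ℕ := (h.filter (fun x => w ∈ x.1)).length

/-- sum of the degrees over a set -/
def dS (h : List (Sym2 ℕ × Bool)) (S : Finset ℕ) : ℕ := ∑ w ∈ S, dg h w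

theorem dg_append (h : List (Sym2 ℕ × Bool)) (x : Sym2 ℕ × Bool) (w : ℕ) :
    dg (h ++ [x]) w = dg h w + if w ∈ x.1 then 1 else 0 := by
  unfold dg
  rw [List.filter_append, List.length_append]
  congr 1
  by_cases hw : w ∈ x.1
  · simp [hw]
  · simp [hw]

theorem dS_append (h : List (Sym2 ℕ × Bool)) (x : Sym2 ℕ × Bool) {u v : ℕ} (huv : u ≠ v)
    (hx : x.1 = s(u, v)) (S : Finset ℕ) :
    dS (h ++ [x]) S = dS h S + ((if u ∈ S then 1 else 0) + (if v ∈ S then 1 else 0)) := by
  unfold dS
  simp_rw [dg_append]
  rw [sum_add_distrib]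
  congr 1
  have h1 : ∀ w : ℕ, (if w ∈ x.1 then 1 else 0) = (if u = w then 1 else 0) +
      (if v = w then 1 else 0) := by
    intro w
    rw [hx]
    by_cases h1 : w = u
    · rw [if_pos (Sym2.mem_iff.2 (Or.inl h1)), if_pos h1.symm,
        if_neg (fun h2 : v = w => huv (h1.symm.trans h2.symm))]
    · by_cases h2 : w = v
      · rw [if_pos (Sym2.mem_iff.2 (Or.inr h2)), if_neg (fun h3 => h1 h3.symm), if_pos h2.symm]
      · rw [if_neg (fun h3 => by
          rw [Sym2.mem_iff] at h3
          rcases h3 with h3 | h3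
          · exact h1 h3
          · exact h2 h3), if_neg (fun h3 => h1 h3.symm), if_neg (fun h3 => h2 h3.symm)]
  rw [sum_congr rfl fun w _ => h1 w, sum_add_distrib, sum_ite_eq, sum_ite_eq]

/-- the pair lies inside `S` -/
def inside (S : Finset ℕ) (e : Sym2 ℕ) : Prop := (rep e).1 ∈ S ∧ (rep e).2 ∈ S

noncomputable instance (S : Finset ℕ) (e : Sym2 ℕ) : Decidable (inside S e) := by
  unfold inside; infer_instance

/-- number of entries inside `S` -/
noncomputable def E (h : List (Sym2 ℕ × Bool)) (S : Finset ℕ) : ℕ :=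
  (h.filter (fun x => inside S x.1)).length

theorem E_append (h : List (Sym2 ℕ × Bool)) (x : Sym2 ℕ × Bool) (S : Finset ℕ) :
    E (h ++ [x]) S = E h S + if inside S x.1 then 1 else 0 := by
  unfold E
  rw [List.filter_append, List.length_append]
  congr 1
  by_cases hw : inside S x.1
  · simp [hw]
  · simp [hw]

/-- no entry joins `A` and `B` -/
def NoCross (h : List (Sym2 ℕ × Bool)) (A B : Finset ℕ) : Prop :=
  ∀ x ∈ h, ∀ a ∈ A, ∀ b ∈ B, x.1 ≠ s(a, b)

theorem NoCross.symm {h : List (Sym2 ℕ × Bool)} {A B : Finset ℕ} (hc : NoCross h A B) :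
    NoCross h B A := by
  intro x hx b hb a ha he
  exact hc x hx a ha b hb (he.trans Sym2.eq_swap)

theorem E_le {h : List (Sym2 ℕ × Bool)} {A S : Finset ℕ}
    (hc : NoCross h A (S \ A)) : E h S ≤ E h A + E h (S \ A) := by
  unfold E
  induction h with
  | nil => simp
  | cons x t ih =>
    have ht : NoCross t A (S \ A) := fun y hy => hc y (List.mem_cons_of_mem _ hy)
    have ih' := ih ht
    by_cases hS : inside S x.1
    · have hor : inside A x.1 ∨ inside (S \ A) x.1 := by
        by_cases h1 : (rep x.1).1 ∈ A
        · by_cases h2 : (rep x.1).2 ∈ A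
          · exact Or.inl ⟨h1, h2⟩
          · exact absurd (rep_spec x.1) (hc x (List.mem_cons_self) _ h1 _
              (mem_sdiff.2 ⟨hS.2, h2⟩))
        · by_cases h2 : (rep x.1).2 ∈ A
          · exact absurd ((rep_spec x.1).trans Sym2.eq_swap) (hc x (List.mem_cons_self) _ h2 _
              (mem_sdiff.2 ⟨hS.1, h1⟩))
          · exact Or.inr ⟨mem_sdiff.2 ⟨hS.1, h1⟩, mem_sdiff.2 ⟨hS.2, h2⟩⟩
      rw [List.filter_cons_of_pos (by simpa using hS), List.length_cons]
      rcases hor with hA | hB
      · rw [List.filter_cons_of_pos (p := fun x : Sym2 ℕ × Bool => decide (inside A x.1))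
          (by simpa using hA), List.length_cons]
        by_cases hB : inside (S \ A) x.1
        · rw [List.filter_cons_of_pos
            (p := fun x : Sym2 ℕ × Bool => decide (inside (S \ A) x.1))
            (by simpa using hB), List.length_cons]
          omega
        · rw [List.filter_cons_of_neg
            (p := fun x : Sym2 ℕ × Bool => decide (inside (S \ A) x.1))
            (by simpa using hB)]
          omega
      · rw [List.filter_cons_of_pos
            (p := fun x : Sym2 ℕ × Bool => decide (inside (S \ A) x.1))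
            (by simpa using hB), List.length_cons]
        by_cases hA : inside A x.1
        · rw [List.filter_cons_of_pos (p := fun x : Sym2 ℕ × Bool => decide (inside A x.1))
            (by simpa using hA), List.length_cons]
          omega
        · rw [List.filter_cons_of_neg (p := fun x : Sym2 ℕ × Bool => decide (inside A x.1))
            (by simpa using hA)]
          omega
    · rw [List.filter_cons_of_neg (by simpa using hS)]
      have hmono : ∀ (p : Sym2 ℕ × Bool → Bool), (t.filter p).length ≤
          ((x :: t).filter p).length := by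
        intro p
        by_cases hp : p x = true
        · rw [List.filter_cons_of_pos hp, List.length_cons]; omega
        · rw [List.filter_cons_of_neg hp]
      have h1 := hmono (fun x => decide (inside A x.1))
      have h2 := hmono (fun x => decide (inside (S \ A) x.1))
      omega

/-- `S` is connected in the graph of the history -/
def Conn (h : List (Sym2 ℕ × Bool)) (S : Finset ℕ) : Prop :=
  S.Nonempty ∧ ∀ A ⊆ S, A.Nonempty → A ≠ S → ¬ NoCross h A (S \ A)

theorem conn_part {h : List (Sym2 ℕ × Bool)} {x : Sym2 ℕ × Bool} {u v : ℕ}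
    (hx : x.1 = s(u, v)) {A S : Finset ℕ} (hA : A ⊆ S) (hu : u ∈ A) (hv : v ∉ A)
    (hc : NoCross h A (S \ A)) (hS : Conn (h ++ [x]) S) : Conn h A := by
  refine ⟨⟨u, hu⟩, ?_⟩
  -- a general subset of `A` not containing `u`
  have key : ∀ T ⊆ A, T.Nonempty → u ∉ T → ¬ NoCross h T (A \ T) := by
    intro T hT hTne huT hcT
    refine hS.2 T (hT.trans hA) hTne (fun h' => huT (h' ▸ hA hu)) ?_
    intro y hy a ha b hb he
    rw [List.mem_append, List.mem_singleton] at hy
    rcases hy with hy | rfl
    · by_cases hbA : b ∈ A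
      · exact hcT y hy a ha b (mem_sdiff.2 ⟨hbA, (mem_sdiff.1 hb).2⟩) he
      · exact hc y hy a (hT ha) b (mem_sdiff.2 ⟨(mem_sdiff.1 hb).1, hbA⟩) he
    · rw [hx] at he
      have h1 : a ∈ s(u, v) := by
        rw [he]; exact Sym2.mem_mk_left _ _
      rw [Sym2.mem_iff] at h1
      rcases h1 with rfl | rfl
      · exact huT ha
      · exact hv (hT ha)
  intro T hT hTne hTA hcT
  by_cases huT : u ∈ T
  · have hne : (A \ T).Nonempty := by
      rw [sdiff_nonempty]
      intro h'
      exact hTA (Subset.antisymm hT h')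
    refine key (A \ T) sdiff_subset hne (fun h' => (mem_sdiff.1 h').2 huT) ?_
    rw [Finset.sdiff_sdiff_eq_self hT]
    exact hcT.symm
  · exact key T hT hTne huT hcT

theorem conn_nil {S : Finset ℕ} (hS : Conn [] S) : S.card = 1 := by
  obtain ⟨⟨a, ha⟩, h⟩ := hS
  by_contra hne
  have h1 : ({a} : Finset ℕ) ≠ S := by
    intro h'
    rw [← h', card_singleton] at hne
    exact hne rfl
  refine h {a} (singleton_subset_iff.2 ha) (singleton_nonempty a) h1 ?_
  intro x hx
  exact absurd hx List.not_mem_nil

/-- the connectedness does not change when the new entry is not inside `S` -/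
theorem conn_of_append {h : List (Sym2 ℕ × Bool)} {x : Sym2 ℕ × Bool} {u v : ℕ}
    (hx : x.1 = s(u, v)) {S : Finset ℕ} (hn : ¬ (u ∈ S ∧ v ∈ S)) (hS : Conn (h ++ [x]) S) :
    Conn h S := by
  refine ⟨hS.1, fun A hA hne hAS hc => hS.2 A hA hne hAS ?_⟩
  intro y hy a ha b hb he
  rw [List.mem_append, List.mem_singleton] at hy
  rcases hy with hy | rfl
  · exact hc y hy a ha b hb he
  · rw [hx] at he
    apply hn
    have h1 : u ∈ s(a, b) := by rw [← he]; exact Sym2.mem_mk_left _ _
    have h2 : v ∈ s(a, b) := by rw [← he]; exact Sym2.mem_mk_right _ _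
    rw [Sym2.mem_iff] at h1 h2
    have ha' := hA ha
    have hb' := (mem_sdiff.1 hb).1
    constructor
    · rcases h1 with rfl | rfl
      · exact ha'
      · exact hb'
    · rcases h2 with rfl | rfl
      · exact ha'
      · exact hb'

theorem inside_iff {x : Sym2 ℕ} {u v : ℕ} (hu : (rep x).1 = u) (hv : (rep x).2 = v)
    (S : Finset ℕ) : inside S x ↔ (u ∈ S ∧ v ∈ S) := by
  unfold inside
  rw [hu, hv]

theorem inside_mono {x : Sym2 ℕ} {A S : Finset ℕ} (hA : A ⊆ S) (h : inside A x) : inside S x :=
  ⟨hA h.1, hA h.2⟩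

theorem alg (q L t : ℝ) (hL : L ≠ 0) (a b c d e f : ℕ) :
    (2 * q ^ 2 / L) * ((L * 2 ^ a * t ^ c * q ^ e) * (L * 2 ^ b * t ^ d * q ^ f)) =
      L * 2 ^ (a + b + 1) * t ^ (d + c) * q ^ (f + e + (1 + 1)) := by
  rw [div_mul_eq_mul_div, div_eq_iff hL]
  ring

/-- the lower bound on the potential of monochromatic connected sets -/
theorem lower {q L z0 : ℝ} (hq0 : 0 ≤ q) (hL : 0 < L) (h0 : 0 ≤ z0) (c : Bool)
    (h : List (Sym2 ℕ × Bool)) (hdiag : ∀ x ∈ h, ¬ x.1.IsDiag) :
    ∀ S : Finset ℕ, Conn h S → (∀ x ∈ h, inside S x.1 → x.2 = c) →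
      L * 2 ^ (E h S) * (z0 / L) ^ S.card * q ^ (dS h S) ≤ zof q L z0 h c S := by
  induction h using List.reverseRecOn with
  | nil =>
    intro S hS _
    have h1 := conn_nil hS
    rw [zof_nil]
    unfold init
    rw [if_pos h1, h1]
    have h2 : E [] S = 0 := rfl
    have h3 : dS [] S = 0 := by
      unfold dS dg
      simp
    rw [h2, h3]
    have : L * 2 ^ 0 * (z0 / L) ^ 1 * q ^ 0 = z0 := by
      field_simp
    exact this.le
  | append_singleton h x ih =>
    intro S hS hmono
    have hdiag' : ∀ x ∈ h, ¬ x.1.IsDiag := fun y hy =>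
      hdiag y (List.mem_append_left _ hy)
    have hxd : ¬ x.1.IsDiag := hdiag x (List.mem_append_right _ (List.mem_singleton_self x))
    have huv := rep_ne hxd
    have hx := rep_spec x.1
    have hzn := zof_nonneg hq0 hL h0 h
    have hmono' : ∀ A ⊆ S, ∀ y ∈ h, inside A y.1 → y.2 = c := fun A hA y hy hi =>
      hmono y (List.mem_append_left _ hy) (inside_mono hA hi)
    rw [zof_append]
    unfold upd
    rw [if_neg huv]
    rw [dS_append h x huv hx, E_append, if_congr (inside_iff rfl rfl S) rfl rfl]
    set u := (rep x.1).1 with hu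
    set v := (rep x.1).2 with hv
    set z := zof q L z0 h with hz
    by_cases huS : u ∈ S
    · by_cases hvS : v ∈ S
      · -- both
        have hc : x.2 = c := hmono x (List.mem_append_right _ (List.mem_singleton_self x))
          ⟨huS, hvS⟩
        rw [hc, step_both huS hvS, if_pos ⟨huS, hvS⟩, if_pos huS, if_pos hvS]
        have hsumnn : ∀ C ∈ ((S.erase u).erase v).powerset,
            0 ≤ z c (insert u C) * z c (insert v (((S.erase u).erase v) \ C)) :=
          fun C _ => mul_nonneg (hzn _ _) (hzn _ _)
        by_cases hconn : Conn h S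
        · have h1 := ih hdiag' S hconn (hmono' S (Subset.refl _))
          have h2 : 0 ≤ (2 * q ^ 2 / L) * ∑ C ∈ ((S.erase u).erase v).powerset,
              z c (insert u C) * z c (insert v (((S.erase u).erase v) \ C)) :=
            mul_nonneg (by positivity) (sum_nonneg hsumnn)
          have h3 := mul_le_mul_of_nonneg_left h1 (show (0 : ℝ) ≤ 2 * q ^ 2 by positivity)
          have h4 : L * 2 ^ (E h S + 1) * (z0 / L) ^ S.card * q ^ (dS h S + (1 + 1)) =
              2 * q ^ 2 * (L * 2 ^ (E h S) * (z0 / L) ^ S.card * q ^ (dS h S)) := by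
            rw [pow_succ, pow_add q (dS h S)]
            ring
          rw [h4]
          linarith
        · -- merging
          have hex : ∃ A ⊆ S, u ∈ A ∧ v ∉ A ∧ NoCross h A (S \ A) := by
            have h1 : ∃ A ⊆ S, A.Nonempty ∧ A ≠ S ∧ NoCross h A (S \ A) := by
              by_contra hcon
              push Not at hcon
              exact hconn ⟨hS.1, hcon⟩
            obtain ⟨A, hA, hne, hAS, hcA⟩ := h1
            have h2 := hS.2 A hA hne hAS
            unfold NoCross at h2
            push Not at h2
            obtain ⟨y, hy, a, ha, b, hb, he⟩ := h2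
            rw [List.mem_append, List.mem_singleton] at hy
            rcases hy with hy | rfl
            · exact absurd he (hcA y hy a ha b hb)
            · rw [hx, Sym2.eq_iff] at he
              rcases he with ⟨rfl, rfl⟩ | ⟨rfl, rfl⟩
              · exact ⟨A, hA, ha, (mem_sdiff.1 hb).2, hcA⟩
              · refine ⟨S \ A, sdiff_subset, hb, fun h' => (mem_sdiff.1 h').2 ha, ?_⟩
                rw [Finset.sdiff_sdiff_eq_self hA]
                exact hcA.symm
          obtain ⟨A, hA, huA, hvA, hcA⟩ := hex
          have hcA1 : Conn h A := conn_part hx hA huA hvA hcA hS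
          have hBA : S \ (S \ A) = A := Finset.sdiff_sdiff_eq_self hA
          have hcB1 : Conn h (S \ A) := by
            refine conn_part (u := v) (v := u) (hx.trans Sym2.eq_swap) sdiff_subset
              (mem_sdiff.2 ⟨hvS, hvA⟩) (fun h' => (mem_sdiff.1 h').2 huA) ?_ hS
            rw [hBA]
            exact hcA.symm
          have h1 := ih hdiag' A hcA1 (hmono' A hA)
          have h2 := ih hdiag' (S \ A) hcB1 (hmono' (S \ A) sdiff_subset)
          have hE := E_le hcA
          have hd : dS h (S \ A) + dS h A = dS h S := by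
            unfold dS
            exact sum_sdiff hA
          have hcard : (S \ A).card + A.card = S.card := card_sdiff_add_card_eq_card hA
          -- the term of the sum
          have hterm : z c A * z c (S \ A) ≤ ∑ C ∈ ((S.erase u).erase v).powerset,
              z c (insert u C) * z c (insert v (((S.erase u).erase v) \ C)) := by
            have hmem : A.erase u ∈ ((S.erase u).erase v).powerset := by
              rw [mem_powerset]
              intro a ha
              rw [mem_erase] at ha
              rw [mem_erase, mem_erase]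
              exact ⟨fun h' => hvA (h' ▸ ha.2), ha.1, hA ha.2⟩
            have h3 := single_le_sum (f := fun C => z c (insert u C) *
              z c (insert v (((S.erase u).erase v) \ C))) hsumnn hmem
            have e1 : insert u (A.erase u) = A := insert_erase huA
            have e2 : insert v (((S.erase u).erase v) \ (A.erase u)) = S \ A := by
              ext a
              simp only [mem_insert, mem_sdiff, mem_erase, not_and]
              constructor
              · rintro (rfl | ⟨⟨h4, h5, h6⟩, h7⟩)
                · exact ⟨hvS, hvA⟩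
                · exact ⟨h6, h7 h5⟩
              · rintro ⟨h4, h5⟩
                by_cases h6 : a = v
                · exact Or.inl h6
                · exact Or.inr ⟨⟨h6, fun h7 => h5 (h7 ▸ huA), h4⟩, fun _ => h5⟩
            simp only [e1, e2] at h3
            exact h3
          have hqn : ∀ k : ℕ, (0 : ℝ) ≤ q ^ k := fun k => pow_nonneg hq0 k
          have hzL : ∀ k : ℕ, (0 : ℝ) ≤ (z0 / L) ^ k := fun k => pow_nonneg (by positivity) k
          have hprod : (L * 2 ^ (E h A) * (z0 / L) ^ A.card * q ^ (dS h A)) *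
              (L * 2 ^ (E h (S \ A)) * (z0 / L) ^ (S \ A).card * q ^ (dS h (S \ A))) ≤
              z c A * z c (S \ A) := by
            refine mul_le_mul h1 h2 ?_ (hzn _ _)
            exact mul_nonneg (mul_nonneg (by positivity) (hzL _)) (hqn _)
          have hfin : L * 2 ^ (E h S + 1) * (z0 / L) ^ S.card * q ^ (dS h S + (1 + 1)) ≤
              (2 * q ^ 2 / L) *
              ((L * 2 ^ (E h A) * (z0 / L) ^ A.card * q ^ (dS h A)) *
              (L * 2 ^ (E h (S \ A)) * (z0 / L) ^ (S \ A).card * q ^ (dS h (S \ A)))) := by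
            have e1 : (2 * q ^ 2 / L) *
              ((L * 2 ^ (E h A) * (z0 / L) ^ A.card * q ^ (dS h A)) *
              (L * 2 ^ (E h (S \ A)) * (z0 / L) ^ (S \ A).card * q ^ (dS h (S \ A)))) =
              L * 2 ^ (E h A + E h (S \ A) + 1) * (z0 / L) ^ S.card * q ^ (dS h S + (1 + 1)) := by
              rw [← hd, ← hcard]
              exact alg q L (z0 / L) hL.ne' _ _ _ _ _ _
            rw [e1]
            have e2 : (2 : ℝ) ^ (E h S + 1) ≤ 2 ^ (E h A + E h (S \ A) + 1) :=
              pow_le_pow_right₀ (by norm_num) (by omega)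
            refine mul_le_mul_of_nonneg_right (mul_le_mul_of_nonneg_right
              (mul_le_mul_of_nonneg_left e2 hL.le) (hzL _)) (hqn _)
          have h5 : (2 * q ^ 2 / L) * (z c A * z c (S \ A)) ≤ (2 * q ^ 2 / L) *
              ∑ C ∈ ((S.erase u).erase v).powerset,
              z c (insert u C) * z c (insert v (((S.erase u).erase v) \ C)) :=
            mul_le_mul_of_nonneg_left hterm (by positivity)
          have h6 := mul_le_mul_of_nonneg_left hprod
            (show (0 : ℝ) ≤ 2 * q ^ 2 / L by positivity)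
          have h7 : 0 ≤ 2 * q ^ 2 * z c S := mul_nonneg (by positivity) (hzn _ _)
          linarith
      · -- only `u`
        have hn : ¬ (u ∈ S ∧ v ∈ S) := fun h' => hvS h'.2
        have h1 := ih hdiag' S (conn_of_append hx hn hS) (hmono' S (Subset.refl _))
        rw [step_left huS hvS, if_neg hn, if_pos huS, if_neg hvS]
        have h3 := mul_le_mul_of_nonneg_left h1 hq0
        refine le_trans (le_of_eq ?_) h3
        rw [add_zero, add_zero, pow_succ]
        ring
    · by_cases hvS : v ∈ S
      · have hn : ¬ (u ∈ S ∧ v ∈ S) := fun h' => huS h'.1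
        have h1 := ih hdiag' S (conn_of_append hx hn hS) (hmono' S (Subset.refl _))
        rw [step_right huS hvS, if_neg hn, if_neg huS, if_pos hvS]
        have h3 := mul_le_mul_of_nonneg_left h1 hq0
        refine le_trans (le_of_eq ?_) h3
        rw [add_zero, zero_add, pow_succ]
        ring
      · have hn : ¬ (u ∈ S ∧ v ∈ S) := fun h' => huS h'.1
        have h1 := ih hdiag' S (conn_of_append hx hn hS) (hmono' S (Subset.refl _))
        rw [step_none huS hvS, if_neg hn, if_neg huS, if_neg hvS]
        exact h1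

end Pool.Agent.H940R3
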