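import Mathlib

/-!
# The region of positivity of the partition function of a gas of disjoint sets

`F ζ W` is the sum over all families of pairwise disjoint nonempty subsets of `W` of the product of
`-ζ S` over the members `S` of the family (a polymer partition function at negative activities).
-/

set_option autoImplicit false

open Finset

namespace Pool.Agent.H940R3

variable {α : Type*} [DecidableEq α]

/-- families of pairwise disjoint nonempty subsets of `W` -/
def fam (W : Finset α) : Finset (Finset (Finset α)) :=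
  W.powerset.powerset.filter fun J =>
    (∀ S ∈ J, S.Nonempty) ∧ (∀ S ∈ J, ∀ T ∈ J, S ≠ T → Disjoint S T)

theorem mem_fam {W : Finset α} {J : Finset (Finset α)} :
    J ∈ fam W ↔ (∀ S ∈ J, S ⊆ W) ∧ (∀ S ∈ J, S.Nonempty) ∧
      (∀ S ∈ J, ∀ T ∈ J, S ≠ T → Disjoint S T) := by
  unfold fam
  rw [mem_filter, mem_powerset]
  constructor
  · rintro ⟨h1, h2, h3⟩
    exact ⟨fun S hS => mem_powerset.1 (h1 hS), h2, h3⟩
  · rintro ⟨h1, h2, h3⟩
    exact ⟨fun S hS => mem_powerset.2 (h1 S hS), h2, h3⟩

/-- the partition function -/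
noncomputable def F (ζ : Finset α → ℝ) (W : Finset α) : ℝ :=
  ∑ J ∈ fam W, ∏ S ∈ J, (-ζ S)

theorem F_empty (ζ : Finset α → ℝ) : F ζ ∅ = 1 := by
  have h : fam (∅ : Finset α) = {∅} := by
    ext J
    rw [mem_fam, mem_singleton]
    constructor
    · rintro ⟨h1, h2, -⟩
      rw [eq_empty_iff_forall_notMem]
      intro S hS
      have h3 := h1 S hS
      rw [subset_empty] at h3
      have h4 := h2 S hS
      rw [h3] at h4
      exact not_nonempty_empty h4
    · rintro rfl
      simp
  unfold F
  rw [h]
  simp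

theorem F_congr {ζ ξ : Finset α → ℝ} {W : Finset α} (h : ∀ S, S ⊆ W → ζ S = ξ S) :
    F ζ W = F ξ W := by
  unfold F
  refine sum_congr rfl fun J hJ => prod_congr rfl fun S hS => ?_
  rw [h S ((mem_fam.1 hJ).1 S hS)]

/-- the recursion -/
theorem F_insert (ζ : Finset α → ℝ) {v : α} {W : Finset α} (hv : v ∉ W) :
    F ζ (insert v W) = F ζ W - ∑ B ∈ W.powerset, ζ (insert v B) * F ζ (W \ B) := by
  classical
  have hsplit : F ζ (insert v W) =
      ∑ J ∈ (fam (insert v W)).filter (fun J => ∀ S ∈ J, v ∉ S), ∏ S ∈ J, (-ζ S) +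
      ∑ J ∈ (fam (insert v W)).filter (fun J => ¬ ∀ S ∈ J, v ∉ S), ∏ S ∈ J, (-ζ S) := by
    unfold F
    rw [sum_filter_add_sum_filter_not]
  have h1 : (fam (insert v W)).filter (fun J => ∀ S ∈ J, v ∉ S) = fam W := by
    ext J
    rw [mem_filter, mem_fam, mem_fam]
    constructor
    · rintro ⟨⟨h1, h2, h3⟩, h4⟩
      exact ⟨fun S hS => (subset_insert_iff_of_notMem (h4 S hS)).1 (h1 S hS), h2, h3⟩
    · rintro ⟨h1, h2, h3⟩
      exact ⟨⟨fun S hS => (h1 S hS).trans (subset_insert _ _), h2, h3⟩,
        fun S hS h => hv (h1 S hS h)⟩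
  have h2 : ∑ J ∈ (fam (insert v W)).filter (fun J => ¬ ∀ S ∈ J, v ∉ S), ∏ S ∈ J, (-ζ S) =
      ∑ B ∈ W.powerset, (-ζ (insert v B)) * F ζ (W \ B) := by
    unfold F
    simp_rw [mul_sum]
    rw [sum_sigma']
    symm
    refine sum_nbij (fun x => insert (insert v x.1) x.2) ?_ ?_ ?_ ?_
    · rintro ⟨B, J⟩ hx
      rw [mem_sigma, mem_powerset, mem_fam] at hx
      obtain ⟨hB, h1, h2, h3⟩ := hx
      simp only at hB h1 h2 h3
      rw [mem_filter, mem_fam]
      refine ⟨⟨?_, ?_, ?_⟩, ?_⟩
      · intro S hS
        rw [mem_insert] at hS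
        rcases hS with rfl | hS
        · exact insert_subset_insert _ hB
        · exact ((h1 S hS).trans sdiff_subset).trans (subset_insert _ _)
      · intro S hS
        rw [mem_insert] at hS
        rcases hS with rfl | hS
        · exact insert_nonempty _ _
        · exact h2 S hS
      · have key : ∀ T ∈ J, Disjoint (insert v B) T := by
          intro T hT
          rw [disjoint_left]
          intro a ha haT
          have h5 := h1 T hT haT
          rw [mem_sdiff] at h5
          rw [mem_insert] at ha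
          rcases ha with rfl | ha
          · exact hv h5.1
          · exact h5.2 ha
        intro S hS T hT hST
        rw [mem_insert] at hS hT
        rcases hS with rfl | hS
        · rcases hT with rfl | hT
          · exact absurd rfl hST
          · exact key T hT
        · rcases hT with rfl | hT
          · exact (key S hS).symm
          · exact h3 S hS T hT hST
      · intro h
        exact h (insert v B) (mem_insert_self _ _) (mem_insert_self _ _)
    · rintro ⟨B, J⟩ hx ⟨B', J'⟩ hx' heq
      rw [mem_coe, mem_sigma, mem_powerset, mem_fam] at hx hx'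
      obtain ⟨hB, h1, h2, h3⟩ := hx
      obtain ⟨hB', h1', h2', h3'⟩ := hx'
      simp only at hB h1 h2 h3 hB' h1' h2' h3' heq
      have hvJ : ∀ S ∈ J, v ∉ S := fun S hS h => hv (mem_sdiff.1 (h1 S hS h)).1
      have hvJ' : ∀ S ∈ J', v ∉ S := fun S hS h => hv (mem_sdiff.1 (h1' S hS h)).1
      have hvB : v ∉ B := fun h => hv (hB h)
      have hvB' : v ∉ B' := fun h => hv (hB' h)
      have e1 : insert v B = insert v B' := by
        have h5 : insert v B ∈ insert (insert v B') J' := by
          rw [← heq]; exact mem_insert_self _ _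
        rw [mem_insert] at h5
        rcases h5 with h5 | h5
        · exact h5
        · exact absurd (mem_insert_self v B) (hvJ' _ h5)
      have e2 : B = B' := by
        rw [← erase_insert hvB, e1, erase_insert hvB']
      subst e2
      have hn : insert v B ∉ J := fun h => hvJ _ h (mem_insert_self _ _)
      have hn' : insert v B ∉ J' := fun h => hvJ' _ h (mem_insert_self _ _)
      have e3 : J = J' := by
        rw [← erase_insert hn, heq, erase_insert hn']
      rw [e3]
    · intro J hJ
      rw [mem_coe, mem_filter, mem_fam] at hJ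
      obtain ⟨⟨h1, h2, h3⟩, h4⟩ := hJ
      push Not at h4
      obtain ⟨S, hS, hvS⟩ := h4
      refine ⟨⟨S.erase v, J.erase S⟩, ?_, ?_⟩
      · rw [mem_coe, mem_sigma, mem_powerset, mem_fam]
        refine ⟨?_, ?_, ?_, ?_⟩
        · intro a ha
          simp only at ha
          rw [mem_erase] at ha
          have := h1 S hS ha.2
          rw [mem_insert] at this
          exact this.resolve_left ha.1
        · intro T hT a ha
          simp only at hT ⊢
          rw [mem_erase] at hT
          have hd := h3 S hS T hT.2 (Ne.symm hT.1)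
          rw [disjoint_left] at hd
          rw [mem_sdiff]
          have haW := h1 T hT.2 ha
          rw [mem_insert] at haW
          constructor
          · refine haW.resolve_left ?_
            rintro rfl
            exact hd hvS ha
          · intro haS
            exact hd (mem_erase.1 haS).2 ha
        · intro T hT
          exact h2 T (mem_erase.1 hT).2
        · intro T hT T' hT'
          exact h3 T (mem_erase.1 hT).2 T' (mem_erase.1 hT').2
      · simp only
        rw [insert_erase hvS, insert_erase hS]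
    · rintro ⟨B, J⟩ hx
      rw [mem_sigma, mem_powerset, mem_fam] at hx
      obtain ⟨hB, h1, h2, h3⟩ := hx
      simp only at hB h1 h2 h3 ⊢
      have hn : insert v B ∉ J := fun h =>
        hv (mem_sdiff.1 (h1 _ h (mem_insert_self v B))).1
      rw [prod_insert hn]
  rw [hsplit, h1, h2]
  have : ∑ J ∈ fam W, ∏ S ∈ J, (-ζ S) = F ζ W := rfl
  rw [this]
  simp_rw [neg_mul, sum_neg_distrib]
  ring

/-- the region -/
def Pos (ζ : Finset α → ℝ) : Prop := ∀ W : Finset α, 0 < F ζ W

section ratio
variable {ζ ξ : Finset α → ℝ}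

/-- adding the elements of `B` one at a time -/
theorem ratio_aux (hζ : Pos ζ) {n : ℕ}
    (ih : ∀ X : Finset α, X.card < n → ∀ Y ⊆ X, 0 < F ξ Y ∧ ∀ b, b ∉ X →
      F ζ (insert b X) * F ξ Y ≤ F ξ (insert b Y) * F ζ X)
    {T S : Finset α} (hT : T.card = n) (hS : S ⊆ T) :
    ∀ B : Finset α, B ⊆ S → F ξ (S \ B) * F ζ T ≤ F ζ (T \ B) * F ξ S := by
  intro B
  induction B using Finset.induction_on with
  | empty =>
    intro _
    rw [sdiff_empty, sdiff_empty, mul_comm]
  | insert b B hb ihB =>
    intro hB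
    have hbS : b ∈ S := hB (mem_insert_self _ _)
    have hBS : B ⊆ S := (subset_insert _ _).trans hB
    have hR := ihB hBS
    set Y := (S \ B).erase b with hY
    set X := (T \ B).erase b with hX
    have hbSB : b ∈ S \ B := mem_sdiff.2 ⟨hbS, hb⟩
    have hbTB : b ∈ T \ B := mem_sdiff.2 ⟨hS hbS, hb⟩
    have eY : S \ insert b B = Y := by
      ext a; simp only [hY, mem_sdiff, mem_insert, mem_erase]; tauto
    have eX : T \ insert b B = X := by
      ext a; simp only [hX, mem_sdiff, mem_insert, mem_erase]; tauto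
    have hXc : X.card < n := by
      have h1 : X.card < (T \ B).card := card_erase_lt_of_mem hbTB
      have h2 : (T \ B).card ≤ T.card := card_le_card sdiff_subset
      omega
    have hYX : Y ⊆ X := by
      intro a ha
      simp only [hY, hX, mem_sdiff, mem_erase] at ha ⊢
      exact ⟨ha.1, hS ha.2.1, ha.2.2⟩
    have h1 := (ih X hXc Y hYX).2 b (notMem_erase _ _)
    rw [hX, insert_erase hbTB, ← hX, hY, insert_erase hbSB, ← hY] at h1
    rw [eY, eX]
    have p1 : 0 < F ζ (T \ B) := hζ _
    have p2 : 0 < F ζ T := hζ _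
    have p3 : 0 < F ζ X := hζ _
    -- F ξ Y * F ζ T * F ζ (T \ B) ≤ F ξ (S \ B) * F ζ X * F ζ T ≤ F ζ X * F ζ (T\B) * F ξ S
    have h2 : F ξ Y * F ζ T * F ζ (T \ B) ≤ F ζ X * F ξ S * F ζ (T \ B) := by
      calc F ξ Y * F ζ T * F ζ (T \ B) = (F ζ (T \ B) * F ξ Y) * F ζ T := by ring
        _ ≤ (F ξ (S \ B) * F ζ X) * F ζ T := mul_le_mul_of_nonneg_right h1 p2.le
        _ = (F ξ (S \ B) * F ζ T) * F ζ X := by ring
        _ ≤ (F ζ (T \ B) * F ξ S) * F ζ X := mul_le_mul_of_nonneg_right hR p3.le
        _ = F ζ X * F ξ S * F ζ (T \ B) := by ring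
    exact le_of_mul_le_mul_right h2 p1

theorem ratio (hζ : Pos ζ) (h0 : ∀ S, 0 ≤ ξ S) (hle : ∀ S, ξ S ≤ ζ S) (n : ℕ) :
    ∀ T : Finset α, T.card = n → ∀ S ⊆ T, 0 < F ξ S ∧ ∀ v, v ∉ T →
      F ζ (insert v T) * F ξ S ≤ F ξ (insert v S) * F ζ T := by
  induction n using Nat.strong_induction_on with
  | _ n ih =>
    have ih' : ∀ X : Finset α, X.card < n → ∀ Y ⊆ X, 0 < F ξ Y ∧ ∀ b, b ∉ X →
        F ζ (insert b X) * F ξ Y ≤ F ξ (insert b Y) * F ζ X :=
      fun X hX => ih X.card hX X rfl
    intro T hT S hS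
    -- positivity
    have hpos : 0 < F ξ S := by
      by_cases hSe : S = ∅
      · rw [hSe, F_empty]; exact one_pos
      · obtain ⟨w, hw⟩ := nonempty_iff_ne_empty.2 hSe
        have h1 : (S.erase w).card < n := by
          have h2 : (S.erase w).card < S.card := card_erase_lt_of_mem hw
          have h3 : S.card ≤ T.card := card_le_card hS
          omega
        have h2 := ih' (S.erase w) h1 (S.erase w) (Subset.refl _)
        have h3 := h2.2 w (notMem_erase _ _)
        rw [insert_erase hw] at h3
        have h4 : 0 < F ζ S * F ξ (S.erase w) := mul_pos (hζ _) h2.1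
        have h5 : 0 < F ξ S * F ζ (S.erase w) := lt_of_lt_of_le h4 h3
        exact (mul_pos_iff_of_pos_right (hζ _)).1 h5
    refine ⟨hpos, ?_⟩
    intro v hv
    have hvS : v ∉ S := fun h => hv (hS h)
    have hR := ratio_aux hζ ih' hT hS
    rw [F_insert ζ hv, F_insert ξ hvS]
    have h1 : ∑ B ∈ S.powerset, ξ (insert v B) * F ζ (T \ B) ≤
        ∑ B ∈ T.powerset, ζ (insert v B) * F ζ (T \ B) := by
      calc ∑ B ∈ S.powerset, ξ (insert v B) * F ζ (T \ B)
          ≤ ∑ B ∈ S.powerset, ζ (insert v B) * F ζ (T \ B) :=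
            sum_le_sum fun B _ => mul_le_mul_of_nonneg_right (hle _) (hζ _).le
        _ ≤ ∑ B ∈ T.powerset, ζ (insert v B) * F ζ (T \ B) := by
            refine sum_le_sum_of_subset_of_nonneg (powerset_mono.2 hS) fun B _ _ => ?_
            exact mul_nonneg ((h0 _).trans (hle _)) (hζ _).le
    have h2 : (∑ B ∈ S.powerset, ξ (insert v B) * F ξ (S \ B)) * F ζ T ≤
        (∑ B ∈ S.powerset, ξ (insert v B) * F ζ (T \ B)) * F ξ S := by
      rw [sum_mul, sum_mul]
      refine sum_le_sum fun B hB => ?_
      have h3 := hR B (mem_powerset.1 hB)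
      have h4 := mul_le_mul_of_nonneg_left h3 (h0 (insert v B))
      calc ξ (insert v B) * F ξ (S \ B) * F ζ T = ξ (insert v B) * (F ξ (S \ B) * F ζ T) := by ring
        _ ≤ ξ (insert v B) * (F ζ (T \ B) * F ξ S) := h4
        _ = ξ (insert v B) * F ζ (T \ B) * F ξ S := by ring
    have h3 := mul_le_mul_of_nonneg_right h1 hpos.le
    nlinarith

theorem Pos.mono (hζ : Pos ζ) (h0 : ∀ S, 0 ≤ ξ S) (hle : ∀ S, ξ S ≤ ζ S) : Pos ξ := fun W =>
  (ratio hζ h0 hle W.card W rfl W (Subset.refl _)).1

/-- removal ratio -/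
theorem removal (hζ : Pos ζ) (h0 : ∀ S, 0 ≤ ζ S) {T S B : Finset α} (hS : S ⊆ T) (hB : B ⊆ S) :
    F ζ (S \ B) * F ζ T ≤ F ζ (T \ B) * F ζ S :=
  ratio_aux hζ (fun X _ => ratio hζ h0 (fun _ => le_rfl) X.card X rfl) rfl hS B hB

theorem F_insert_le (hζ : Pos ζ) (h0 : ∀ S, 0 ≤ ζ S) (v : α) (W : Finset α) :
    F ζ (insert v W) ≤ F ζ W := by
  by_cases hv : v ∈ W
  · rw [insert_eq_of_mem hv]
  · rw [F_insert ζ hv]
    have : 0 ≤ ∑ B ∈ W.powerset, ζ (insert v B) * F ζ (W \ B) :=
      sum_nonneg fun B _ => mul_nonneg (h0 _) (hζ _).le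
    linarith

theorem F_le_one (hζ : Pos ζ) (h0 : ∀ S, 0 ≤ ζ S) (W : Finset α) : F ζ W ≤ 1 := by
  induction W using Finset.induction_on with
  | empty => rw [F_empty]
  | insert v W _ ih => exact (F_insert_le hζ h0 v W).trans ih

/-- every activity is less than one -/
theorem Pos.lt_one (hζ : Pos ζ) (h0 : ∀ S, 0 ≤ ζ S) {S : Finset α} (hS : S.Nonempty) :
    ζ S < 1 := by
  obtain ⟨v, hv⟩ := hS
  have h1 : F ζ S = F ζ (insert v (S.erase v)) := by rw [insert_erase hv]
  rw [F_insert ζ (notMem_erase v S)] at h1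
  have h2 : ζ S ≤ ∑ B ∈ (S.erase v).powerset, ζ (insert v B) * F ζ (S.erase v \ B) := by
    have h3 : ζ (insert v (S.erase v)) * F ζ (S.erase v \ S.erase v) ≤
        ∑ B ∈ (S.erase v).powerset, ζ (insert v B) * F ζ (S.erase v \ B) :=
      single_le_sum (f := fun B => ζ (insert v B) * F ζ (S.erase v \ B))
        (fun B _ => mul_nonneg (h0 _) (hζ _).le) (mem_powerset_self _)
    rw [insert_erase hv, sdiff_self, Finset.bot_eq_empty, F_empty, mul_one] at h3
    exact h3
  have h3 := hζ S
  have h4 := F_le_one hζ h0 (S.erase v)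
  linarith

end ratio

/-- adding activities on sets containing `u` keeps the positivity on all subsets -/
theorem pos_of_add {ζ δ : Finset α → ℝ} (hζ : Pos ζ) (h0 : ∀ S, 0 ≤ ζ S) (hδ : ∀ S, 0 ≤ δ S)
    {u : α} (hu : ∀ S, u ∉ S → δ S = 0) {Λ W : Finset α} (hW : W ⊆ Λ)
    (hpos : 0 < F (fun S => ζ S + δ S) Λ) : 0 < F (fun S => ζ S + δ S) W := by
  have hnot : ∀ X : Finset α, u ∉ X → F (fun S => ζ S + δ S) X = F ζ X := by
    intro X hX
    refine F_congr fun S hS => ?_
    rw [hu S (fun h => hX (hS h)), add_zero]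
  have hin : ∀ X : Finset α, u ∉ X → F (fun S => ζ S + δ S) (insert u X) =
      F ζ (insert u X) - ∑ B ∈ X.powerset, δ (insert u B) * F ζ (X \ B) := by
    intro X hX
    rw [F_insert _ hX, F_insert ζ hX, hnot X hX, sub_sub, ← sum_add_distrib]
    congr 1
    refine sum_congr rfl fun B _ => ?_
    rw [hnot (X \ B) (fun h => hX (mem_sdiff.1 h).1)]
    ring
  by_cases huW : u ∈ W
  · have huΛ := hW huW
    have eW : insert u (W.erase u) = W := insert_erase huW
    have eΛ : insert u (Λ.erase u) = Λ := insert_erase huΛ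
    have h1 := hin (W.erase u) (notMem_erase _ _)
    have h2 := hin (Λ.erase u) (notMem_erase _ _)
    rw [eW] at h1
    rw [eΛ] at h2
    have key : (∑ B ∈ (W.erase u).powerset, δ (insert u B) * F ζ (W.erase u \ B)) * F ζ Λ ≤
        (∑ B ∈ (Λ.erase u).powerset, δ (insert u B) * F ζ (Λ.erase u \ B)) * F ζ W := by
      calc (∑ B ∈ (W.erase u).powerset, δ (insert u B) * F ζ (W.erase u \ B)) * F ζ Λ
          ≤ (∑ B ∈ (W.erase u).powerset, δ (insert u B) * F ζ (Λ.erase u \ B)) * F ζ W := by
            rw [sum_mul, sum_mul]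
            refine sum_le_sum fun B hB => ?_
            have hB' := mem_powerset.1 hB
            have hsub : insert u B ⊆ W := by
              intro a ha
              rw [mem_insert] at ha
              rcases ha with rfl | ha
              · exact huW
              · exact (mem_erase.1 (hB' ha)).2
            have h3 := removal hζ h0 hW hsub
            have e1 : W \ insert u B = W.erase u \ B := by
              ext a; simp only [mem_sdiff, mem_insert, mem_erase]; tauto
            have e2 : Λ \ insert u B = Λ.erase u \ B := by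
              ext a; simp only [mem_sdiff, mem_insert, mem_erase]; tauto
            rw [e1, e2] at h3
            have h4 := mul_le_mul_of_nonneg_left h3 (hδ (insert u B))
            calc δ (insert u B) * F ζ (W.erase u \ B) * F ζ Λ
                = δ (insert u B) * (F ζ (W.erase u \ B) * F ζ Λ) := by ring
              _ ≤ δ (insert u B) * (F ζ (Λ.erase u \ B) * F ζ W) := h4
              _ = δ (insert u B) * F ζ (Λ.erase u \ B) * F ζ W := by ring
        _ ≤ (∑ B ∈ (Λ.erase u).powerset, δ (insert u B) * F ζ (Λ.erase u \ B)) * F ζ W := by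
            refine mul_le_mul_of_nonneg_right ?_ (hζ _).le
            refine sum_le_sum_of_subset_of_nonneg (powerset_mono.2 (erase_subset_erase u hW))
              fun B _ _ => mul_nonneg (hδ _) (hζ _).le
    have h3 : 0 < F (fun S => ζ S + δ S) W * F ζ Λ := by
      rw [h1, sub_mul]
      rw [h2] at hpos
      have h4 := mul_pos hpos (hζ W)
      rw [sub_mul] at h4
      nlinarith
    exact (mul_pos_iff_of_pos_right (hζ _)).1 h3
  · rw [hnot W huW]
    exact hζ W

end Pool.Agent.H940R3
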