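import Pool.Agent.H940R3.Region

/-!
# One round of the game: exploring a pair `u v`, with merging
-/

set_option autoImplicit false

open Finset

namespace Pool.Agent.H940R3

variable {α : Type*} [DecidableEq α]

/-- sum of single insertions -/
noncomputable def X (ζ : Finset α → ℝ) (G : Finset α → ℝ) (u : α) (M : Finset α) : ℝ :=
  ∑ B ∈ M.powerset, ζ (insert u B) * G (M \ B)

/-- sum of the sets containing both -/
noncomputable def Y (ζ : Finset α → ℝ) (G : Finset α → ℝ) (u v : α) (M : Finset α) : ℝ :=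
  ∑ B ∈ M.powerset, ζ (insert u (insert v B)) * G (M \ B)

/-- sum over disjoint pairs -/
noncomputable def P (a b : Finset α → ℝ) (G : Finset α → ℝ) (u v : α) (M : Finset α) : ℝ :=
  ∑ B ∈ M.powerset, ∑ C ∈ (M \ B).powerset, a (insert u B) * b (insert v C) * G ((M \ B) \ C)

theorem F_insert_two (ζ : Finset α → ℝ) {u v : α} {M : Finset α} (huv : u ≠ v)
    (hu : u ∉ M) (hv : v ∉ M) :
    F ζ (insert u (insert v M)) =
      F ζ M - X ζ (F ζ) u M - X ζ (F ζ) v M - Y ζ (F ζ) u v M + P ζ ζ (F ζ) u v M := by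
  have hu' : u ∉ insert v M := by
    rw [mem_insert]; rintro (h | h)
    · exact huv h
    · exact hu h
  rw [F_insert ζ hu', F_insert ζ hv, sum_powerset_insert hv]
  have h1 : ∑ B ∈ M.powerset, ζ (insert u B) * F ζ (insert v M \ B) =
      X ζ (F ζ) u M - P ζ ζ (F ζ) u v M := by
    unfold X P
    rw [← sum_sub_distrib]
    refine sum_congr rfl fun B hB => ?_
    have hB' := mem_powerset.1 hB
    have hvB : v ∉ B := fun h => hv (hB' h)
    have e : insert v M \ B = insert v (M \ B) := insert_sdiff_of_notMem _ hvB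
    have hvMB : v ∉ M \ B := fun h => hv (mem_sdiff.1 h).1
    rw [e, F_insert ζ hvMB, mul_sub, mul_sum]
    congr 1
    refine sum_congr rfl fun C _ => ?_
    ring
  have h2 : ∑ B ∈ M.powerset, ζ (insert u (insert v B)) * F ζ (insert v M \ insert v B) =
      Y ζ (F ζ) u v M := by
    unfold Y
    refine sum_congr rfl fun B hB => ?_
    have e : insert v M \ insert v B = M \ B := by
      ext a
      simp only [mem_sdiff, mem_insert, not_or]
      constructor
      · rintro ⟨h | h, h1, h2⟩
        · exact absurd h h1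
        · exact ⟨h, h2⟩
      · rintro ⟨h, h1⟩
        exact ⟨Or.inr h, fun h2 => hv (h2 ▸ h), h1⟩
    rw [e]
  rw [h1, h2]
  unfold X
  ring

theorem P_swap (a b : Finset α → ℝ) (G : Finset α → ℝ) (u v : α) (M : Finset α) :
    P a b G u v M = P b a G v u M := by
  unfold P
  rw [sum_comm' (t' := M.powerset) (s' := fun C => (M \ C).powerset)]
  · refine sum_congr rfl fun C _ => sum_congr rfl fun B _ => ?_
    have e : (M \ B) \ C = (M \ C) \ B := sdiff_right_comm _ _ _
    rw [e]
    ring
  · intro B C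
    rw [mem_powerset, mem_powerset, mem_powerset, mem_powerset]
    constructor
    · rintro ⟨h1, h2⟩
      refine ⟨?_, h2.trans sdiff_subset⟩
      intro x hx
      rw [mem_sdiff]
      exact ⟨h1 hx, fun h3 => (mem_sdiff.1 (h2 h3)).2 hx⟩
    · rintro ⟨h1, h2⟩
      refine ⟨h1.trans sdiff_subset, ?_⟩
      intro x hx
      rw [mem_sdiff]
      exact ⟨h2 hx, fun h3 => (mem_sdiff.1 (h1 h3)).2 hx⟩

theorem merge_sum (a b : Finset α → ℝ) (G : Finset α → ℝ) (u v : α) (M : Finset α) :
    ∑ S ∈ M.powerset, (∑ C ∈ S.powerset, a (insert u C) * b (insert v (S \ C))) * G (M \ S) =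
      P a b G u v M := by
  unfold P
  simp_rw [sum_mul]
  rw [sum_sigma', sum_sigma']
  refine sum_nbij' (fun x => ⟨x.2, x.1 \ x.2⟩) (fun x => ⟨x.1 ∪ x.2, x.1⟩) ?_ ?_ ?_ ?_ ?_
  · rintro ⟨S, C⟩ hx
    rw [mem_sigma, mem_powerset, mem_powerset] at hx ⊢
    obtain ⟨h1, h2⟩ := hx
    simp only at h1 h2 ⊢
    exact ⟨h2.trans h1, sdiff_subset_sdiff h1 (Subset.refl _)⟩
  · rintro ⟨B, C⟩ hx
    rw [mem_sigma, mem_powerset, mem_powerset] at hx ⊢
    obtain ⟨h1, h2⟩ := hx
    simp only at h1 h2 ⊢
    exact ⟨union_subset h1 (h2.trans sdiff_subset), subset_union_left⟩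
  · rintro ⟨S, C⟩ hx
    rw [mem_sigma, mem_powerset, mem_powerset] at hx
    obtain ⟨h1, h2⟩ := hx
    simp only at h1 h2 ⊢
    rw [union_sdiff_of_subset h2]
  · rintro ⟨B, C⟩ hx
    rw [mem_sigma, mem_powerset, mem_powerset] at hx
    obtain ⟨h1, h2⟩ := hx
    simp only at h1 h2 ⊢
    have e : (B ∪ C) \ B = C := by
      rw [union_sdiff_left]
      refine sdiff_eq_self_of_disjoint ?_
      rw [disjoint_left]
      intro x hx1 hx2
      exact (mem_sdiff.1 (h2 hx1)).2 hx2
    rw [e]
  · rintro ⟨S, C⟩ hx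
    rw [mem_sigma, mem_powerset, mem_powerset] at hx
    obtain ⟨h1, h2⟩ := hx
    simp only at h1 h2 ⊢
    have e : (M \ C) \ (S \ C) = M \ S := by
      ext x
      simp only [mem_sdiff]
      constructor
      · rintro ⟨⟨h3, h4⟩, h5⟩
        exact ⟨h3, fun h6 => h5 ⟨h6, h4⟩⟩
      · rintro ⟨h3, h4⟩
        exact ⟨⟨h3, fun h5 => h4 (h2 h5)⟩, fun h5 => h4 h5.1⟩
    rw [e]

theorem P_le_X {ζ : Finset α → ℝ} (hζ : Pos ζ) (h0 : ∀ S, 0 ≤ ζ S) {u v : α} {M : Finset α}
    (hv : v ∉ M) : P ζ ζ (F ζ) u v M ≤ X ζ (F ζ) u M := by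
  unfold P X
  refine sum_le_sum fun B _ => ?_
  have hvMB : v ∉ M \ B := fun h => hv (mem_sdiff.1 h).1
  have h1 := F_insert ζ hvMB
  have h2 := hζ (insert v (M \ B))
  have h3 : ∑ C ∈ (M \ B).powerset, ζ (insert v C) * F ζ ((M \ B) \ C) ≤ F ζ (M \ B) := by
    linarith
  have h4 := mul_le_mul_of_nonneg_left h3 (h0 (insert u B))
  rw [mul_sum] at h4
  refine le_trans (le_of_eq ?_) h4
  refine sum_congr rfl fun C _ => ?_
  ring

theorem P_nonneg {a b G : Finset α → ℝ} (ha : ∀ S, 0 ≤ a S) (hb : ∀ S, 0 ≤ b S)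
    (hG : ∀ S, 0 ≤ G S) (u v : α) (M : Finset α) : 0 ≤ P a b G u v M := by
  unfold P
  exact sum_nonneg fun B _ => sum_nonneg fun C _ => mul_nonneg (mul_nonneg (ha _) (hb _)) (hG _)

theorem Y_nonneg {a G : Finset α → ℝ} (ha : ∀ S, 0 ≤ a S)
    (hG : ∀ S, 0 ≤ G S) (u v : α) (M : Finset α) : 0 ≤ Y a G u v M := by
  unfold Y
  exact sum_nonneg fun B _ => mul_nonneg (ha _) (hG _)

/-- the change of the potential when the pair `u v` gets the colour `c'` -/
noncomputable def step (q L : ℝ) (z : Bool → Finset α → ℝ) (u v : α) (c' : Bool) :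
    Bool → Finset α → ℝ := fun c S =>
  if u ∈ S then
    if v ∈ S then
      if c = c' then 2 * q ^ 2 * z c S + (2 * q ^ 2 / L) *
        ∑ C ∈ ((S.erase u).erase v).powerset,
          z c (insert u C) * z c (insert v (((S.erase u).erase v) \ C))
      else 0
    else q * z c S
  else if v ∈ S then q * z c S else z c S

theorem step_nonneg {q L : ℝ} (hq : 0 ≤ q) (hL : 0 < L) {z : Bool → Finset α → ℝ}
    (hz : ∀ c S, 0 ≤ z c S) (u v : α) (c' c : Bool) (S : Finset α) :
    0 ≤ step q L z u v c' c S := by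
  unfold step
  split_ifs
  · refine add_nonneg (mul_nonneg (by positivity) (hz _ _)) (mul_nonneg (by positivity) ?_)
    exact sum_nonneg fun C _ => mul_nonneg (hz _ _) (hz _ _)
  · exact le_rfl
  · exact mul_nonneg hq (hz _ _)
  · exact mul_nonneg hq (hz _ _)
  · exact hz _ _

/-- total potential -/
noncomputable def tot (z : Bool → Finset α → ℝ) : Finset α → ℝ := fun S => z true S + z false S

omit [DecidableEq α] in
theorem tot_nonneg {z : Bool → Finset α → ℝ} (hz : ∀ c S, 0 ≤ z c S) (S : Finset α) :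
    0 ≤ tot z S := add_nonneg (hz _ _) (hz _ _)

theorem step_none {q L : ℝ} {z : Bool → Finset α → ℝ} {u v : α} {c' : Bool}
    {S : Finset α} (hu : u ∉ S) (hv : v ∉ S) (c : Bool) : step q L z u v c' c S = z c S := by
  unfold step
  rw [if_neg hu, if_neg hv]

theorem step_left {q L : ℝ} {z : Bool → Finset α → ℝ} {u v : α} {c' : Bool}
    {S : Finset α} (hu : u ∈ S) (hv : v ∉ S) (c : Bool) : step q L z u v c' c S = q * z c S := by
  unfold step
  rw [if_pos hu, if_neg hv]

theorem step_right {q L : ℝ} {z : Bool → Finset α → ℝ} {u v : α} {c' : Bool}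
    {S : Finset α} (hu : u ∉ S) (hv : v ∈ S) (c : Bool) : step q L z u v c' c S = q * z c S := by
  unfold step
  rw [if_neg hu, if_pos hv]

theorem step_both {q L : ℝ} {z : Bool → Finset α → ℝ} {u v : α} {c : Bool}
    {S : Finset α} (hu : u ∈ S) (hv : v ∈ S) : step q L z u v c c S =
      2 * q ^ 2 * z c S + (2 * q ^ 2 / L) *
        ∑ C ∈ ((S.erase u).erase v).powerset,
          z c (insert u C) * z c (insert v (((S.erase u).erase v) \ C)) := by
  unfold step
  rw [if_pos hu, if_pos hv, if_pos rfl]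

theorem step_both_ne {q L : ℝ} {z : Bool → Finset α → ℝ} {u v : α} {c c' : Bool} (h : c ≠ c')
    {S : Finset α} (hu : u ∈ S) (hv : v ∈ S) : step q L z u v c' c S = 0 := by
  unfold step
  rw [if_pos hu, if_pos hv, if_neg h]

/-- the total after the step on a set containing both ends -/
theorem tot_step_both {q L : ℝ} {z : Bool → Finset α → ℝ} {u v : α} {c : Bool}
    {S : Finset α} (hu : u ∈ S) (hv : v ∈ S) : tot (step q L z u v c) S =
      2 * q ^ 2 * z c S + (2 * q ^ 2 / L) *
        ∑ C ∈ ((S.erase u).erase v).powerset,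
          z c (insert u C) * z c (insert v (((S.erase u).erase v) \ C)) := by
  unfold tot
  cases c
  · rw [step_both_ne (by decide) hu hv, step_both hu hv]; ring
  · rw [step_both_ne (c := false) (by decide) hu hv, step_both hu hv]; ring

theorem F_step {q L : ℝ} {z : Bool → Finset α → ℝ} {u v : α} (huv : u ≠ v) {M : Finset α}
    (hu : u ∉ M) (hv : v ∉ M) (c : Bool) :
    F (tot (step q L z u v c)) (insert u (insert v M)) =
      F (tot z) M - q * X (tot z) (F (tot z)) u M - q * X (tot z) (F (tot z)) v M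
      - (2 * q ^ 2 * Y (z c) (F (tot z)) u v M
          + (2 * q ^ 2 / L) * P (z c) (z c) (F (tot z)) u v M)
      + q ^ 2 * P (tot z) (tot z) (F (tot z)) u v M := by
  have hF : ∀ W : Finset α, W ⊆ M → F (tot (step q L z u v c)) W = F (tot z) W := by
    intro W hW
    refine F_congr fun S hS => ?_
    unfold tot
    rw [step_none (fun h => hu (hW (hS h))) (fun h => hv (hW (hS h))),
      step_none (fun h => hu (hW (hS h))) (fun h => hv (hW (hS h)))]
  rw [F_insert_two _ huv hu hv, hF M (Subset.refl _)]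
  have h1 : X (tot (step q L z u v c)) (F (tot (step q L z u v c))) u M =
      q * X (tot z) (F (tot z)) u M := by
    unfold X
    rw [mul_sum]
    refine sum_congr rfl fun B hB => ?_
    have hB' := mem_powerset.1 hB
    rw [hF _ sdiff_subset]
    have h2 : v ∉ insert u B := by
      rw [mem_insert]; rintro (h | h)
      · exact huv h.symm
      · exact hv (hB' h)
    unfold tot
    rw [step_left (mem_insert_self _ _) h2, step_left (mem_insert_self _ _) h2]
    ring
  have h2 : X (tot (step q L z u v c)) (F (tot (step q L z u v c))) v M =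
      q * X (tot z) (F (tot z)) v M := by
    unfold X
    rw [mul_sum]
    refine sum_congr rfl fun B hB => ?_
    have hB' := mem_powerset.1 hB
    rw [hF _ sdiff_subset]
    have h2 : u ∉ insert v B := by
      rw [mem_insert]; rintro (h | h)
      · exact huv h
      · exact hu (hB' h)
    unfold tot
    rw [step_right h2 (mem_insert_self _ _), step_right h2 (mem_insert_self _ _)]
    ring
  have h3 : P (tot (step q L z u v c)) (tot (step q L z u v c))
      (F (tot (step q L z u v c))) u v M =
      q ^ 2 * P (tot z) (tot z) (F (tot z)) u v M := by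
    unfold P
    rw [mul_sum]
    refine sum_congr rfl fun B hB => ?_
    have hB' := mem_powerset.1 hB
    rw [mul_sum]
    refine sum_congr rfl fun C hC => ?_
    have hC' : C ⊆ M := (mem_powerset.1 hC).trans sdiff_subset
    rw [hF _ (sdiff_subset.trans sdiff_subset)]
    have h2 : v ∉ insert u B := by
      rw [mem_insert]; rintro (h | h)
      · exact huv h.symm
      · exact hv (hB' h)
    have h3 : u ∉ insert v C := by
      rw [mem_insert]; rintro (h | h)
      · exact huv h
      · exact hu (hC' h)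
    unfold tot
    rw [step_left (mem_insert_self _ _) h2, step_left (mem_insert_self _ _) h2,
      step_right h3 (mem_insert_self _ _), step_right h3 (mem_insert_self _ _)]
    ring
  have h4 : Y (tot (step q L z u v c)) (F (tot (step q L z u v c))) u v M =
      2 * q ^ 2 * Y (z c) (F (tot z)) u v M
          + (2 * q ^ 2 / L) * P (z c) (z c) (F (tot z)) u v M := by
    rw [← merge_sum]
    unfold Y
    rw [mul_sum, mul_sum, ← sum_add_distrib]
    refine sum_congr rfl fun B hB => ?_
    have hB' := mem_powerset.1 hB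
    have huB : u ∉ B := fun h => hu (hB' h)
    have hvB : v ∉ B := fun h => hv (hB' h)
    have hu2 : u ∈ insert u (insert v B) := mem_insert_self _ _
    have hv2 : v ∈ insert u (insert v B) := mem_insert_of_mem (mem_insert_self _ _)
    have hu3 : u ∉ insert v B := by
      rw [mem_insert]; rintro (h | h)
      · exact huv h
      · exact huB h
    have e : ((insert u (insert v B)).erase u).erase v = B := by
      rw [erase_insert hu3, erase_insert hvB]
    rw [hF _ sdiff_subset, tot_step_both hu2 hv2, e]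
    ring
  rw [h1, h2, h3, h4]

/-- the average of the two outcomes -/
theorem round_avg {q L : ℝ} (hq0 : 0 ≤ q) (hq1 : q ≤ 1) (hL : 0 < L)
    (hqL : q ^ 2 / L ≤ (1 - q) ^ 2) {z : Bool → Finset α → ℝ} (hz : ∀ c S, 0 ≤ z c S)
    (hpos : Pos (tot z)) {u v : α} (huv : u ≠ v) {M : Finset α} (hu : u ∉ M) (hv : v ∉ M) :
    2 * F (tot z) (insert u (insert v M)) ≤
      F (tot (step q L z u v true)) (insert u (insert v M)) +
      F (tot (step q L z u v false)) (insert u (insert v M)) := by
  rw [F_step huv hu hv, F_step huv hu hv, F_insert_two _ huv hu hv]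
  have h0 : ∀ S, 0 ≤ tot z S := tot_nonneg hz
  have hG : ∀ S, 0 ≤ F (tot z) S := fun S => (hpos S).le
  set G := F (tot z) with hGdef
  have hPu : P (tot z) (tot z) G u v M ≤ X (tot z) G u M := P_le_X hpos h0 hv
  have hPv : P (tot z) (tot z) G u v M ≤ X (tot z) G v M := by
    rw [P_swap]
    exact P_le_X hpos h0 hu
  have hP0 : 0 ≤ P (tot z) (tot z) G u v M := P_nonneg h0 h0 hG u v M
  have hY0 : 0 ≤ Y (tot z) G u v M := Y_nonneg h0 hG u v M
  have hY : Y (z true) G u v M + Y (z false) G u v M = Y (tot z) G u v M := by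
    unfold Y tot
    rw [← sum_add_distrib]
    refine sum_congr rfl fun B _ => ?_
    ring
  have hPP : P (z true) (z true) G u v M + P (z false) (z false) G u v M ≤
      P (tot z) (tot z) G u v M := by
    unfold P tot
    rw [← sum_add_distrib]
    refine sum_le_sum fun B _ => ?_
    rw [← sum_add_distrib]
    refine sum_le_sum fun C _ => ?_
    have h1 := hz true (insert u B)
    have h2 := hz false (insert u B)
    have h3 := hz true (insert v C)
    have h4 := hz false (insert v C)
    have h5 := hG ((M \ B) \ C)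
    have h6 := mul_nonneg (mul_nonneg h1 h4) h5
    have h7 := mul_nonneg (mul_nonneg h2 h3) h5
    nlinarith
  have hc : 0 ≤ q ^ 2 / L := by positivity
  have e2 : 2 * q ^ 2 / L = 2 * (q ^ 2 / L) := by ring
  rw [e2]
  have hPP' := mul_le_mul_of_nonneg_left hPP hc
  have h1 : (q ^ 2 / L) * P (tot z) (tot z) G u v M ≤ (1 - q) ^ 2 * P (tot z) (tot z) G u v M :=
    mul_le_mul_of_nonneg_right hqL hP0
  have h2 : (1 - q) * P (tot z) (tot z) G u v M ≤ (1 - q) * X (tot z) G u M :=
    mul_le_mul_of_nonneg_left hPu (by linarith)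
  have h3 : (1 - q) * P (tot z) (tot z) G u v M ≤ (1 - q) * X (tot z) G v M :=
    mul_le_mul_of_nonneg_left hPv (by linarith)
  have h4 : 0 ≤ (1 - q ^ 2) * Y (tot z) G u v M := by
    refine mul_nonneg ?_ hY0
    nlinarith
  rw [← hY] at h4
  nlinarith

/-- one of the two colours keeps the positivity -/
theorem exists_colour {q L : ℝ} (hq0 : 0 ≤ q) (hq1 : q ≤ 1) (hL : 0 < L)
    (hqL : q ^ 2 / L ≤ (1 - q) ^ 2) {z : Bool → Finset α → ℝ} (hz : ∀ c S, 0 ≤ z c S)
    (hpos : Pos (tot z)) {u v : α} (huv : u ≠ v) :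
    ∃ c : Bool, Pos (tot (step q L z u v c)) := by
  classical
  by_contra hcon
  push Not at hcon
  have hbad : ∀ c : Bool, ∃ W : Finset α, F (tot (step q L z u v c)) W ≤ 0 := by
    intro c
    have h := hcon c
    unfold Pos at h
    push Not at h
    exact h
  obtain ⟨Wt, hWt⟩ := hbad true
  obtain ⟨Wf, hWf⟩ := hbad false
  -- the reduced activity
  let ζ₀ : Finset α → ℝ := fun S =>
    if u ∈ S then (if v ∈ S then 0 else q * tot z S)
    else (if v ∈ S then q * tot z S else tot z S)
  have h0 : ∀ S, 0 ≤ tot z S := tot_nonneg hz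
  have h00 : ∀ S, 0 ≤ ζ₀ S := by
    intro S
    simp only [ζ₀]
    split_ifs
    · exact le_rfl
    · exact mul_nonneg hq0 (h0 S)
    · exact mul_nonneg hq0 (h0 S)
    · exact h0 S
  have hle : ∀ S, ζ₀ S ≤ tot z S := by
    intro S
    simp only [ζ₀]
    split_ifs
    · exact h0 S
    · exact mul_le_of_le_one_left (h0 S) hq1
    · exact mul_le_of_le_one_left (h0 S) hq1
    · exact le_rfl
  have hpos0 : Pos ζ₀ := hpos.mono h00 hle
  let δ : Bool → Finset α → ℝ := fun c S =>
    if u ∈ S ∧ v ∈ S then tot (step q L z u v c) S else 0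
  have hδ0 : ∀ c S, 0 ≤ δ c S := by
    intro c S
    simp only [δ]
    split_ifs
    · exact tot_nonneg (step_nonneg hq0 hL hz u v c) S
    · exact le_rfl
  have hδu : ∀ c S, u ∉ S → δ c S = 0 := by
    intro c S h
    simp only [δ]
    rw [if_neg (fun h' => h h'.1)]
  have hsum : ∀ c, (fun S => ζ₀ S + δ c S) = tot (step q L z u v c) := by
    intro c
    funext S
    simp only [ζ₀, δ]
    by_cases hu : u ∈ S
    · by_cases hv : v ∈ S
      · rw [if_pos hu, if_pos hv, if_pos ⟨hu, hv⟩, zero_add]
      · rw [if_pos hu, if_neg hv, if_neg (fun h => hv h.2), add_zero]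
        unfold tot
        rw [step_left hu hv, step_left hu hv]; ring
    · by_cases hv : v ∈ S
      · rw [if_neg hu, if_pos hv, if_neg (fun h => hu h.1), add_zero]
        unfold tot
        rw [step_right hu hv, step_right hu hv]; ring
      · rw [if_neg hu, if_neg hv, if_neg (fun h => hu h.1), add_zero]
        unfold tot
        rw [step_none hu hv, step_none hu hv]
  set M : Finset α := ((Wt ∪ Wf).erase u).erase v with hM
  have huM : u ∉ M := by
    rw [hM, mem_erase, mem_erase]
    exact fun h => h.2.1 rfl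
  have hvM : v ∉ M := notMem_erase _ _
  have hsub : Wt ∪ Wf ⊆ insert u (insert v M) := by
    intro x hx
    rw [mem_insert, mem_insert, hM, mem_erase, mem_erase]
    by_cases h1 : x = u
    · exact Or.inl h1
    · by_cases h2 : x = v
      · exact Or.inr (Or.inl h2)
      · exact Or.inr (Or.inr ⟨h2, h1, hx⟩)
  have key : ∀ c, 0 < F (tot (step q L z u v c)) (insert u (insert v M)) →
      ∀ W ⊆ insert u (insert v M), 0 < F (tot (step q L z u v c)) W := by
    intro c hc W hW
    rw [← hsum c] at hc ⊢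
    exact pos_of_add hpos0 h00 (hδ0 c) (hδu c) hW hc
  have h1 : F (tot (step q L z u v true)) (insert u (insert v M)) ≤ 0 := by
    by_contra h
    exact absurd (key true (not_le.1 h) Wt (subset_union_left.trans hsub)) (not_lt.2 hWt)
  have h2 : F (tot (step q L z u v false)) (insert u (insert v M)) ≤ 0 := by
    by_contra h
    exact absurd (key false (not_le.1 h) Wf (subset_union_right.trans hsub)) (not_lt.2 hWf)
  have h3 := round_avg hq0 hq1 hL hqL hz hpos huv huM hvM
  have h4 := hpos (insert u (insert v M))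
  linarith

end Pool.Agent.H940R3
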